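import Pool.Agent.Helper22.G4.St.C0

/-! # G4-C8: edges outside the gadgets -/

namespace Pool.Agent.Helper49.G4

open Pool.Agent.Helper22.G4

/-- G4-C8a (edges outside the gadgets). -/
theorem NF.padj_symm {I : NF} {a b : Vx} (h : I.data.padj a b) : I.data.padj b a := by
  refine ⟨h.1.symm, fun t ht h1 h2 => ?_⟩
  obtain ⟨f, hf, hfa, hfb, hft⟩ := h.2 t ht h2 h1
  exact ⟨f, hf, hfb, hfa, hft⟩

/-- the contrapositive form of `padj` -/
theorem padj_of {I : NF} {a b : Vx} (hne : a ≠ b)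
    (h : ∀ t ∈ I.data.verts, (∀ f ∈ I.data.fcodes, Fc.mem f a = true → Fc.mem f b = true →
      Fc.mem f t = true) → t = a ∨ t = b) : I.data.padj a b := by
  refine ⟨hne, fun t ht h1 h2 => ?_⟩
  by_contra hcon
  push Not at hcon
  rcases h t ht (fun f hf ha hb => hcon f hf ha hb) with h | h
  · exact h1 h
  · exact h2 h

/-- the incidences of `Fc.F` -/
theorem F_u {N s b a i j : ℕ} : Fc.mem (Fc.F N s b) (Vx.u a i j) = true ↔
    (a = 0 ∨ a = b ∨ a = b + 1) ∧ i ≤ s ∧ s ≤ j := by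
  rw [Fc.mem_u]; simp [Fc.F]

theorem F_b1 {N s b : ℕ} : Fc.mem (Fc.F N s b) Vx.b1 = true ↔ s = N := by
  rw [Fc.mem_b1]; simp [Fc.F]

theorem F_b2 {N s b : ℕ} : Fc.mem (Fc.F N s b) Vx.b2 = true ↔ s = 0 := by
  rw [Fc.mem_b2]; simp [Fc.F]

theorem F_p {N s b g : ℕ} : ¬ Fc.mem (Fc.F N s b) (Vx.p g) = true := by
  rw [Fc.mem_p]; simp [Fc.F]

theorem F_q {N s b g : ℕ} : ¬ Fc.mem (Fc.F N s b) (Vx.q g) = true := by
  rw [Fc.mem_q]; simp [Fc.F]

/-- the incidences of `Fc.Q` -/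
theorem Q_u {N b c a i j : ℕ} : Fc.mem (Fc.Q N b c) (Vx.u a i j) = true ↔
    (a = b ∨ a = c) ∧ i ≤ N := by
  rw [Fc.mem_u]; simp [Fc.Q]

theorem Q_b1 {N b c : ℕ} : Fc.mem (Fc.Q N b c) Vx.b1 = true := by
  rw [Fc.mem_b1]; simp [Fc.Q]

theorem Q_b2 {N b c : ℕ} : Fc.mem (Fc.Q N b c) Vx.b2 = true := by
  rw [Fc.mem_b2]; simp [Fc.Q]

theorem Q_p {N b c g : ℕ} : ¬ Fc.mem (Fc.Q N b c) (Vx.p g) = true := by
  rw [Fc.mem_p]; simp [Fc.Q]

theorem Q_q {N b c g : ℕ} : ¬ Fc.mem (Fc.Q N b c) (Vx.q g) = true := by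
  rw [Fc.mem_q]; simp [Fc.Q]

/-- the facet `next` contains the vertices of page `0` and page `a` that meet the slope -/
theorem next_u {M N s b a i j : ℕ} (hs : s ≤ N) (ha : a = 0 ∨ a = b) (h1 : i ≤ s) (h2 : s ≤ j) :
    Fc.mem (OpD.next M N b s) (Vx.u a i j) = true := by
  unfold OpD.next
  split_ifs with h
  · rw [Q_u]; omega
  · rw [F_u]; omega

theorem prev_u {N s b a i j : ℕ} (hs : s ≤ N) (_hb : b ≠ 0) (ha : a = 0 ∨ a = b) (h1 : i ≤ s)
    (h2 : s ≤ j) :
    Fc.mem (OpD.prev N b s) (Vx.u a i j) = true := by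
  unfold OpD.prev
  split_ifs with h
  · rw [Q_u]; omega
  · rw [F_u]; omega

theorem next_b1 {M N b : ℕ} : Fc.mem (OpD.next M N b N) Vx.b1 = true := by
  unfold OpD.next
  split_ifs with h
  · exact Q_b1
  · rw [F_b1]

theorem prev_b1 {N b : ℕ} : Fc.mem (OpD.prev N b N) Vx.b1 = true := by
  unfold OpD.prev
  split_ifs with h
  · exact Q_b1
  · rw [F_b1]

theorem next_b2 {M N b : ℕ} : Fc.mem (OpD.next M N b 0) Vx.b2 = true := by
  unfold OpD.next
  split_ifs with h
  · exact Q_b2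
  · rw [F_b2]

theorem prev_b2 {N b : ℕ} : Fc.mem (OpD.prev N b 0) Vx.b2 = true := by
  unfold OpD.prev
  split_ifs with h
  · exact Q_b2
  · rw [F_b2]

/-- What it means to be in both `prev` and `next`. -/
theorem prev_next_u {M N s b a i j : ℕ} (hM : 4 ≤ M) (hb : b ≠ 0) (hbM : b ≤ M) (ha : a ≤ M)
    (h : Fc.mem (OpD.prev N b s) (Vx.u a i j) = true)
    (h' : Fc.mem (OpD.next M N b s) (Vx.u a i j) = true) : (a = 0 ∨ a = b) ∧ i ≤ s ∧ s ≤ j := by
  unfold OpD.prev at h
  unfold OpD.next at h'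
  split_ifs at h with h1 <;> split_ifs at h' with h2
  · omega
  · rw [Q_u] at h; rw [F_u] at h'; omega
  · rw [F_u] at h; rw [Q_u] at h'; omega
  · rw [F_u] at h; rw [F_u] at h'; omega

theorem prev_next_b1 {M N s b : ℕ} (hM : 4 ≤ M) 
    (h : Fc.mem (OpD.prev N b s) Vx.b1 = true)
    (h' : Fc.mem (OpD.next M N b s) Vx.b1 = true) : s = N := by
  unfold OpD.prev at h
  unfold OpD.next at h'
  split_ifs at h with h1 <;> split_ifs at h' with h2
  · omega
  · exact F_b1.1 h'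
  · exact F_b1.1 h
  · exact F_b1.1 h

theorem prev_next_b2 {M N s b : ℕ} (hM : 4 ≤ M) 
    (h : Fc.mem (OpD.prev N b s) Vx.b2 = true)
    (h' : Fc.mem (OpD.next M N b s) Vx.b2 = true) : s = 0 := by
  unfold OpD.prev at h
  unfold OpD.next at h'
  split_ifs at h with h1 <;> split_ifs at h' with h2
  · omega
  · exact F_b2.1 h'
  · exact F_b2.1 h
  · exact F_b2.1 h

theorem prev_p {N s b g : ℕ} : ¬ Fc.mem (OpD.prev N b s) (Vx.p g) = true := by
  unfold OpD.prev
  split_ifs with h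
  · exact Q_p
  · exact F_p

theorem prev_q {N s b g : ℕ} : ¬ Fc.mem (OpD.prev N b s) (Vx.q g) = true := by
  unfold OpD.prev
  split_ifs with h
  · exact Q_q
  · exact F_q

/-- Each page `a ≥ 1` has a facet that contains no other page. -/
theorem full {I : NF} {a i j : ℕ} (h : I.PU a i j) (ha : a ≠ 0) :
    ∃ f ∈ I.data.fcodes, Fc.mem f Vx.b1 = true ∧ Fc.mem f Vx.b2 = true ∧
      (∀ k l, k ≤ I.N → Fc.mem f (Vx.u a k l) = true) ∧
      ∀ a' k l, Fc.mem f (Vx.u a' k l) = true → a' = a := by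
  rw [NF.pu_iff] at h
  rcases h with h | ⟨d, hd, h⟩
  · exact absurd h.1 ha
  have key : ∀ f ∈ OpD.facets I.M I.N d, f ∈ I.data.fcodes := fun f hf =>
    NF.mem_fcodes.2 (Or.inr (Or.inr ⟨d, hd, hf⟩))
  rcases h with h | h | h | h
  · refine ⟨Fc.GY I.N d.pa d.g0, key _ (by simp [OpD.facets]), ?_, ?_, ?_, ?_⟩
    · rw [Fc.mem_b1]; rfl
    · rw [Fc.mem_b2]; rfl
    · intro k l hk; rw [Fc.mem_u, h.1]; simp [Fc.GY, hk]
    · intro a' k l hk; rw [Fc.mem_u] at hk; rw [h.1]; simp [Fc.GY] at hk; exact hk.1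
  · refine ⟨Fc.GX I.N d.pb d.g0, key _ (by simp [OpD.facets]), ?_, ?_, ?_, ?_⟩
    · rw [Fc.mem_b1]; rfl
    · rw [Fc.mem_b2]; rfl
    · intro k l hk; rw [Fc.mem_u, h.1]; simp [Fc.GX, hk]
    · intro a' k l hk; rw [Fc.mem_u] at hk; rw [h.1]; simp [Fc.GX] at hk; exact hk.1
  · refine ⟨Fc.GY I.N d.pc d.g1, key _ (by simp [OpD.facets]), ?_, ?_, ?_, ?_⟩
    · rw [Fc.mem_b1]; rfl
    · rw [Fc.mem_b2]; rfl
    · intro k l hk; rw [Fc.mem_u, h.1]; simp [Fc.GY, hk]
    · intro a' k l hk; rw [Fc.mem_u] at hk; rw [h.1]; simp [Fc.GY] at hk; exact hk.1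
  · refine ⟨Fc.GY I.N d.pd d.g2, key _ (by simp [OpD.facets]), ?_, ?_, ?_, ?_⟩
    · rw [Fc.mem_b1]; rfl
    · rw [Fc.mem_b2]; rfl
    · intro k l hk; rw [Fc.mem_u, h.1]; simp [Fc.GY, hk]
    · intro a' k l hk; rw [Fc.mem_u] at hk; rw [h.1]; simp [Fc.GY] at hk; exact hk.1

theorem F_fc {I : NF} {a s : ℕ} (ha : 1 ≤ a) (ha' : a + 1 ≤ I.M) (hs : s ≤ I.N) :
    Fc.F I.N s a ∈ I.data.fcodes :=
  NF.mem_fcodes.2 (Or.inr (Or.inl ⟨a, s, ha, ha', hs, rfl⟩))

theorem u_inj {a i j b k l : ℕ} : Vx.u a i j = Vx.u b k l ↔ a = b ∧ i = k ∧ j = l := by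
  simp [Vx.u]

theorem pu0 {I : NF} {i j : ℕ} (h : I.PU 0 i j) : i < I.N ∧ j = i + 1 := by
  rw [NF.pu_iff] at h
  rcases h with h | ⟨d, hd, h⟩
  · exact h.2
  · simp only [OpD.pa, OpD.pb, OpD.pc, OpD.pd] at h
    omega

theorem NF.padj_page {I : NF} (hI : I.OK) {a i j k : ℕ} (h : I.PU a i j) (h' : I.PU a j k) :
    I.data.padj (Vx.u a i j) (Vx.u a j k) := by
  obtain ⟨hM, -, hN, -⟩ := NF.size hI
  have hl := NF.pu_lt hI h
  have hl' := NF.pu_lt hI h'
  refine padj_of (by rw [Ne, u_inj]; omega) ?_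
  intro t ht hall
  by_cases ha : a = 0
  · subst ha
    have e1 := pu0 h
    have e2 := pu0 h'
    have f1 := hall _ (F_fc (a := 1) (s := j) (by omega) (by omega) (by omega))
      (F_u.2 (by omega)) (F_u.2 (by omega))
    have f3 := hall _ (F_fc (a := 3) (s := j) (by omega) (by omega) (by omega))
      (F_u.2 (by omega)) (F_u.2 (by omega))
    rcases NF.verts_cases ht with rfl | rfl | ⟨a', i', j', hp, rfl⟩ | ⟨g, -, rfl⟩ | ⟨g, -, rfl⟩
    · rw [F_b1] at f1; omega
    · rw [F_b2] at f1; omega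
    · rw [F_u] at f1 f3
      obtain rfl : a' = 0 := by omega
      have e3 := pu0 hp
      rw [u_inj, u_inj]
      omega
    · exact absurd f1 F_p
    · exact absurd f1 F_q
  · obtain ⟨f, hf, fb1, fb2, fu, fu'⟩ := full h ha
    have f1 := hall _ (NF.prev_mem hI (a := a) (s := j) (by omega) hl.2.2 hl.2.1)
      (prev_u (by omega) ha (Or.inr rfl) (by omega) (by omega))
      (prev_u (by omega) ha (Or.inr rfl) (by omega) (by omega))
    have f2 := hall _ (NF.next_mem hI (a := a) (s := j) (by omega) hl.2.2 hl.2.1)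
      (next_u (by omega) (Or.inr rfl) (by omega) (by omega))
      (next_u (by omega) (Or.inr rfl) (by omega) (by omega))
    have f3 := hall _ hf (fu _ _ (by omega)) (fu _ _ (by omega))
    rcases NF.verts_cases ht with rfl | rfl | ⟨a', i', j', hp, rfl⟩ | ⟨g, -, rfl⟩ | ⟨g, -, rfl⟩
    · have := prev_next_b1 hM f1 f2; omega
    · have := prev_next_b2 hM f1 f2; omega
    · obtain rfl := fu' _ _ _ f3
      have hl3 := NF.pu_lt hI hp
      have := prev_next_u hM ha hl.2.2 hl3.2.2 f1 f2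
      rw [u_inj, u_inj]
      by_cases hij : i' < j
      · have := NF.pu_unique hI hp h hij (by omega)
        omega
      · have := NF.pu_unique hI hp h' (by omega) (by omega)
        omega
    · exact absurd f1 prev_p
    · exact absurd f1 prev_q

theorem NF.padj_b2 {I : NF} (hI : I.OK) {a j : ℕ} (h : I.PU a 0 j) :
    I.data.padj Vx.b2 (Vx.u a 0 j) := by
  obtain ⟨hM, -, hN, -⟩ := NF.size hI
  have hl := NF.pu_lt hI h
  refine padj_of (by simp [Vx.u, Vx.b2]) ?_
  intro t ht hall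
  by_cases ha : a = 0
  · subst ha
    have e1 := pu0 h
    have f1 := hall _ (F_fc (a := 1) (s := 0) (by omega) (by omega) (by omega))
      (F_b2.2 rfl) (F_u.2 (by omega))
    have f3 := hall _ (F_fc (a := 3) (s := 0) (by omega) (by omega) (by omega))
      (F_b2.2 rfl) (F_u.2 (by omega))
    rcases NF.verts_cases ht with rfl | rfl | ⟨a', i', j', hp, rfl⟩ | ⟨g, -, rfl⟩ | ⟨g, -, rfl⟩
    · rw [F_b1] at f1; omega
    · exact Or.inl rfl
    · rw [F_u] at f1 f3
      obtain rfl : a' = 0 := by omega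
      have e3 := pu0 hp
      right
      rw [u_inj]
      omega
    · exact absurd f1 F_p
    · exact absurd f1 F_q
  · obtain ⟨f, hf, fb1, fb2, fu, fu'⟩ := full h ha
    have f1 := hall _ (NF.prev_mem hI (a := a) (s := 0) (by omega) hl.2.2 (by omega))
      prev_b2
      (prev_u (by omega) ha (Or.inr rfl) (by omega) (by omega))
    have f2 := hall _ (NF.next_mem hI (a := a) (s := 0) (by omega) hl.2.2 (by omega))
      next_b2
      (next_u (by omega) (Or.inr rfl) (by omega) (by omega))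
    have f3 := hall _ hf fb2 (fu _ _ (by omega))
    rcases NF.verts_cases ht with rfl | rfl | ⟨a', i', j', hp, rfl⟩ | ⟨g, -, rfl⟩ | ⟨g, -, rfl⟩
    · have := prev_next_b1 hM f1 f2; omega
    · exact Or.inl rfl
    · obtain rfl := fu' _ _ _ f3
      have hl3 := NF.pu_lt hI hp
      have := prev_next_u hM ha hl.2.2 hl3.2.2 f1 f2
      right
      rw [u_inj]
      have := NF.pu_unique hI hp h (by omega) (by omega)
      omega
    · exact absurd f1 prev_p
    · exact absurd f1 prev_q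

theorem NF.padj_b1 {I : NF} (hI : I.OK) {a i : ℕ} (h : I.PU a i I.N) :
    I.data.padj Vx.b1 (Vx.u a i I.N) := by
  obtain ⟨hM, -, hN, -⟩ := NF.size hI
  have hl := NF.pu_lt hI h
  refine padj_of (by simp [Vx.u, Vx.b1]) ?_
  intro t ht hall
  by_cases ha : a = 0
  · subst ha
    have e1 := pu0 h
    have f1 := hall _ (F_fc (a := 1) (s := I.N) (by omega) (by omega) (by omega))
      (F_b1.2 rfl) (F_u.2 (by omega))
    have f3 := hall _ (F_fc (a := 3) (s := I.N) (by omega) (by omega) (by omega))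
      (F_b1.2 rfl) (F_u.2 (by omega))
    rcases NF.verts_cases ht with rfl | rfl | ⟨a', i', j', hp, rfl⟩ | ⟨g, -, rfl⟩ | ⟨g, -, rfl⟩
    · exact Or.inl rfl
    · rw [F_b2] at f1; omega
    · rw [F_u] at f1 f3
      obtain rfl : a' = 0 := by omega
      have e3 := pu0 hp
      right
      rw [u_inj]
      omega
    · exact absurd f1 F_p
    · exact absurd f1 F_q
  · obtain ⟨f, hf, fb1, fb2, fu, fu'⟩ := full h ha
    have f1 := hall _ (NF.prev_mem hI (a := a) (s := I.N) (by omega) hl.2.2 (by omega))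
      prev_b1
      (prev_u (by omega) ha (Or.inr rfl) (by omega) (by omega))
    have f2 := hall _ (NF.next_mem hI (a := a) (s := I.N) (by omega) hl.2.2 (by omega))
      next_b1
      (next_u (by omega) (Or.inr rfl) (by omega) (by omega))
    have f3 := hall _ hf fb1 (fu _ _ (by omega))
    rcases NF.verts_cases ht with rfl | rfl | ⟨a', i', j', hp, rfl⟩ | ⟨g, -, rfl⟩ | ⟨g, -, rfl⟩
    · exact Or.inl rfl
    · have := prev_next_b2 hM f1 f2; omega
    · obtain rfl := fu' _ _ _ f3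
      have hl3 := NF.pu_lt hI hp
      have := prev_next_u hM ha hl.2.2 hl3.2.2 f1 f2
      right
      rw [u_inj]
      have := NF.pu_unique hI hp h (by omega) (by omega)
      omega
    · exact absurd f1 prev_p
    · exact absurd f1 prev_q

theorem NF.padj_b {I : NF} (hI : I.OK) : I.data.padj Vx.b1 Vx.b2 := by
  obtain ⟨hM, hM', hN, -⟩ := NF.size hI
  obtain ⟨d, hd, hd0⟩ := NF.opds_exists (I := I) (n := 0) (by omega)
  refine padj_of (by simp [Vx.b1, Vx.b2]) ?_
  intro t ht hall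
  have f1 := hall (Fc.Q I.N 0 1) (NF.mem_fcodes.2 (Or.inl rfl)) Q_b1 Q_b2
  have f2 := hall (Fc.GX I.N d.pb d.g0)
    (NF.mem_fcodes.2 (Or.inr (Or.inr ⟨d, hd, by simp [OpD.facets]⟩)))
    (by rw [Fc.mem_b1]; rfl) (by rw [Fc.mem_b2]; rfl)
  rcases NF.verts_cases ht with rfl | rfl | ⟨a', i', j', hp, rfl⟩ | ⟨g, -, rfl⟩ | ⟨g, -, rfl⟩
  · exact Or.inl rfl
  · exact Or.inr rfl
  · rw [Q_u] at f1
    rw [Fc.mem_u] at f2
    simp only [Fc.GX, OpD.pb, hd0] at f2
    omega
  · exact absurd f1 Q_p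
  · exact absurd f1 Q_q

theorem NF.padj_left {I : NF} (hI : I.OK) {a i s : ℕ} (ha : a ≠ 0) (h : I.PU a i s)
    (hs : s < I.N) : I.data.padj (Vx.u 0 (s - 1) s) (Vx.u a i s) := by
  obtain ⟨hM, -, hN, -⟩ := NF.size hI
  have hl := NF.pu_lt hI h
  have hg := NF.pu_long hI h ha
  refine padj_of (by rw [Ne, u_inj]; omega) ?_
  intro t ht hall
  have f1 := hall _ (NF.prev_mem hI (a := a) (s := s) (by omega) hl.2.2 (by omega))
    (prev_u (by omega) ha (Or.inl rfl) (by omega) (by omega))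
    (prev_u (by omega) ha (Or.inr rfl) (by omega) (by omega))
  have f2 := hall _ (NF.next_mem hI (a := a) (s := s) (by omega) hl.2.2 (by omega))
    (next_u (by omega) (Or.inl rfl) (by omega) (by omega))
    (next_u (by omega) (Or.inr rfl) (by omega) (by omega))
  have f3 := hall _ (NF.prev_mem hI (a := a) (s := s - 1) (by omega) hl.2.2 (by omega))
    (prev_u (by omega) ha (Or.inl rfl) (by omega) (by omega))
    (prev_u (by omega) ha (Or.inr rfl) (by omega) (by omega))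
  have f4 := hall _ (NF.next_mem hI (a := a) (s := s - 1) (by omega) hl.2.2 (by omega))
    (next_u (by omega) (Or.inl rfl) (by omega) (by omega))
    (next_u (by omega) (Or.inr rfl) (by omega) (by omega))
  rcases NF.verts_cases ht with rfl | rfl | ⟨a', i', j', hp, rfl⟩ | ⟨g, -, rfl⟩ | ⟨g, -, rfl⟩
  · have := prev_next_b1 hM f1 f2; omega
  · have := prev_next_b2 hM f1 f2; omega
  · have hl3 := NF.pu_lt hI hp
    have e1 := prev_next_u hM ha hl.2.2 hl3.2.2 f1 f2
    have e2 := prev_next_u hM ha hl.2.2 hl3.2.2 f3 f4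
    rw [u_inj, u_inj]
    rcases e1.1 with rfl | rfl
    · have e3 := pu0 hp
      omega
    · have := NF.pu_unique hI hp h (by omega) (by omega)
      omega
  · exact absurd f1 prev_p
  · exact absurd f1 prev_q

theorem NF.padj_right {I : NF} (hI : I.OK) {a j s : ℕ} (ha : a ≠ 0) (h : I.PU a s j)
    (hs : 1 ≤ s) : I.data.padj (Vx.u 0 s (s + 1)) (Vx.u a s j) := by
  obtain ⟨hM, -, hN, -⟩ := NF.size hI
  have hl := NF.pu_lt hI h
  have hg := NF.pu_long hI h ha
  refine padj_of (by rw [Ne, u_inj]; omega) ?_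
  intro t ht hall
  have f1 := hall _ (NF.prev_mem hI (a := a) (s := s) (by omega) hl.2.2 (by omega))
    (prev_u (by omega) ha (Or.inl rfl) (by omega) (by omega))
    (prev_u (by omega) ha (Or.inr rfl) (by omega) (by omega))
  have f2 := hall _ (NF.next_mem hI (a := a) (s := s) (by omega) hl.2.2 (by omega))
    (next_u (by omega) (Or.inl rfl) (by omega) (by omega))
    (next_u (by omega) (Or.inr rfl) (by omega) (by omega))
  have f3 := hall _ (NF.prev_mem hI (a := a) (s := s + 1) (by omega) hl.2.2 (by omega))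
    (prev_u (by omega) ha (Or.inl rfl) (by omega) (by omega))
    (prev_u (by omega) ha (Or.inr rfl) (by omega) (by omega))
  have f4 := hall _ (NF.next_mem hI (a := a) (s := s + 1) (by omega) hl.2.2 (by omega))
    (next_u (by omega) (Or.inl rfl) (by omega) (by omega))
    (next_u (by omega) (Or.inr rfl) (by omega) (by omega))
  rcases NF.verts_cases ht with rfl | rfl | ⟨a', i', j', hp, rfl⟩ | ⟨g, -, rfl⟩ | ⟨g, -, rfl⟩
  · have := prev_next_b1 hM f1 f2; omega
  · have := prev_next_b2 hM f1 f2; omega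
  · have hl3 := NF.pu_lt hI hp
    have e1 := prev_next_u hM ha hl.2.2 hl3.2.2 f1 f2
    have e2 := prev_next_u hM ha hl.2.2 hl3.2.2 f3 f4
    rw [u_inj, u_inj]
    rcases e1.1 with rfl | rfl
    · have e3 := pu0 hp
      omega
    · have := NF.pu_unique hI hp h (by omega) (by omega)
      omega
  · exact absurd f1 prev_p
  · exact absurd f1 prev_q

theorem pu0_mem {I : NF} {i : ℕ} (h : i < I.N) : I.PU 0 i (i + 1) :=
  NF.pu_iff.2 (Or.inl ⟨rfl, h, rfl⟩)

/-- G4-C8b -/
theorem NF.edge_page0 {I : NF} (hI : I.OK) : ∀ e ∈ cycPairs I.page0.1,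
    I.data.padj e.1 e.2 := by
  obtain ⟨hM, -, hN, -⟩ := NF.size hI
  intro e he
  unfold cycPairs at he
  rw [List.mem_iff_getElem] at he
  obtain ⟨n, hn, rfl⟩ := he
  have hlen : I.page0.1.length = I.N + 2 := by
    simp [NF.page0]; omega
  have hn' : n < I.N + 2 := by
    have := hn
    simp only [List.length_zip, List.length_append, List.length_tail, List.length_take] at this
    omega
  rw [List.getElem_zip]
  simp only
  -- the entries
  have A : ∀ m (hm : m < I.page0.1.length), m < I.N - 1 → I.page0.1[m] = Vx.u 0 (m + 1) (m + 2) := by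
    intro m hm hm'
    simp only [NF.page0]
    rw [List.getElem_append_left (by simpa using hm')]
    simp
  have B1 : ∀ m (hm : m < I.page0.1.length), m = I.N - 1 → I.page0.1[m] = Vx.b1 := by
    intro m hm hm'
    subst hm'
    simp only [NF.page0]
    rw [List.getElem_append_right (by simp)]
    simp
  have B2 : ∀ m (hm : m < I.page0.1.length), m = I.N → I.page0.1[m] = Vx.b2 := by
    intro m hm hm'
    subst hm'
    simp only [NF.page0]
    rw [List.getElem_append_right (by simp)]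
    simp only [List.length_map, List.length_range]
    have : I.N - (I.N - 1) = 1 := by omega
    simp [this]
  have B3 : ∀ m (hm : m < I.page0.1.length), m = I.N + 1 → I.page0.1[m] = Vx.u 0 0 1 := by
    intro m hm hm'
    subst hm'
    simp only [NF.page0]
    rw [List.getElem_append_right (by simp; omega)]
    simp only [List.length_map, List.length_range]
    have : I.N + 1 - (I.N - 1) = 2 := by omega
    simp [this]
  by_cases h1 : n = I.N + 1
  · have e1 := B3 n (by omega) h1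
    rw [e1]
    have e2 : (I.page0.1.tail ++ List.take 1 I.page0.1)[n]'(by simp; omega) = Vx.u 0 1 2 := by
      rw [List.getElem_append_right (by simp; omega)]
      simp only [List.length_tail, hlen, h1, List.getElem_take]
      rw [A _ (by omega) (by omega)]
      simp
    rw [e2]
    exact NF.padj_page hI (pu0_mem (by omega)) (pu0_mem (by omega))
  · have e2 : (I.page0.1.tail ++ List.take 1 I.page0.1)[n]'(by simp; omega) =
        I.page0.1[n + 1]'(by omega) := by
      rw [List.getElem_append_left (by simp; omega)]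
      simp
    rw [e2]
    by_cases h2 : n = I.N
    · rw [B2 n (by omega) h2, B3 (n + 1) (by omega) (by omega)]
      exact NF.padj_b2 hI (pu0_mem (by omega))
    by_cases h3 : n = I.N - 1
    · rw [B1 n (by omega) h3, B2 (n + 1) (by omega) (by omega)]
      exact NF.padj_b hI
    by_cases h4 : n + 1 = I.N - 1
    · rw [A n (by omega) (by omega), B1 (n + 1) (by omega) (by omega)]
      have : n + 2 = I.N := by omega
      rw [this]
      refine NF.padj_symm (NF.padj_b1 hI ?_)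
      have := pu0_mem (I := I) (i := n + 1) (by omega)
      rwa [show n + 1 + 1 = I.N by omega] at this
    · rw [A n (by omega) (by omega), A (n + 1) (by omega) (by omega)]
      exact NF.padj_page hI (pu0_mem (by omega)) (pu0_mem (by omega))

theorem NF.edge_pages {I : NF} (hI : I.OK) : ∀ d ∈ I.opds,
    ∀ R ∈ (OpD.flats I.M I.N d).take 10, ∀ e ∈ cycPairs R.1, I.data.padj e.1 e.2 := by
  intro d hd R hR e he
  obtain ⟨hd1, hy, hz, hi, hw, hv, hx, hN, -⟩ := NF.opd_ok hI hd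
  have a1 : I.PU d.pa 0 d.z := NF.pu_iff.2 (Or.inr ⟨d, hd, Or.inl ⟨rfl, Or.inl ⟨rfl, rfl⟩⟩⟩)
  have a2 : I.PU d.pa d.z d.x :=
    NF.pu_iff.2 (Or.inr ⟨d, hd, Or.inl ⟨rfl, Or.inr (Or.inl ⟨rfl, rfl⟩)⟩⟩)
  have a3 : I.PU d.pa d.x I.N :=
    NF.pu_iff.2 (Or.inr ⟨d, hd, Or.inl ⟨rfl, Or.inr (Or.inr ⟨rfl, rfl⟩)⟩⟩)
  have b1 : I.PU d.pb 0 d.y :=
    NF.pu_iff.2 (Or.inr ⟨d, hd, Or.inr (Or.inl ⟨rfl, Or.inl ⟨rfl, rfl⟩⟩)⟩)
  have b2 : I.PU d.pb d.y d.i :=
    NF.pu_iff.2 (Or.inr ⟨d, hd, Or.inr (Or.inl ⟨rfl, Or.inr (Or.inl ⟨rfl, rfl⟩)⟩)⟩)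
  have b3 : I.PU d.pb d.i d.x :=
    NF.pu_iff.2 (Or.inr ⟨d, hd, Or.inr (Or.inl ⟨rfl, Or.inr (Or.inr (Or.inl ⟨rfl, rfl⟩))⟩)⟩)
  have b4 : I.PU d.pb d.x I.N :=
    NF.pu_iff.2 (Or.inr ⟨d, hd, Or.inr (Or.inl ⟨rfl, Or.inr (Or.inr (Or.inr ⟨rfl, rfl⟩))⟩)⟩)
  have c1 : I.PU d.pc 0 d.y :=
    NF.pu_iff.2 (Or.inr ⟨d, hd, Or.inr (Or.inr (Or.inl ⟨rfl, Or.inl ⟨rfl, rfl⟩⟩))⟩)
  have c2 : I.PU d.pc d.y d.v :=
    NF.pu_iff.2 (Or.inr ⟨d, hd, Or.inr (Or.inr (Or.inl ⟨rfl, Or.inr (Or.inl ⟨rfl, rfl⟩)⟩))⟩)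
  have c3 : I.PU d.pc d.v I.N :=
    NF.pu_iff.2 (Or.inr ⟨d, hd, Or.inr (Or.inr (Or.inl ⟨rfl, Or.inr (Or.inr ⟨rfl, rfl⟩)⟩))⟩)
  have d1 : I.PU d.pd 0 d.w :=
    NF.pu_iff.2 (Or.inr ⟨d, hd, Or.inr (Or.inr (Or.inr ⟨rfl, Or.inl ⟨rfl, rfl⟩⟩))⟩)
  have d2 : I.PU d.pd d.w I.N :=
    NF.pu_iff.2 (Or.inr ⟨d, hd, Or.inr (Or.inr (Or.inr ⟨rfl, Or.inr ⟨rfl, rfl⟩⟩))⟩)
  -- quadrangles with page 0
  have sq : ∀ a i s j, a ≠ 0 → I.PU a i s → I.PU a s j → ∀ e ∈ cycPairs
      ([Vx.u 0 (s - 1) s, Vx.u a i s, Vx.u a s j, Vx.u 0 s (s + 1)] : List Vx),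
      I.data.padj e.1 e.2 := by
    intro a i s j ha h1 h2 e he
    have l1 := NF.pu_lt hI h1
    have l2 := NF.pu_lt hI h2
    simp only [cycPairs, List.tail_cons, List.take, List.cons_append, List.nil_append,
      List.zip_cons_cons, List.zip_nil_right, List.mem_cons, List.not_mem_nil, or_false] at he
    rcases he with rfl | rfl | rfl | rfl
    · exact NF.padj_left hI ha h1 (by omega)
    · exact NF.padj_page hI h1 h2
    · exact NF.padj_symm (NF.padj_right hI ha h2 (by omega))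
    · refine NF.padj_symm ?_
      have e1 := pu0_mem (I := I) (i := s - 1) (by omega)
      have e2 := pu0_mem (I := I) (i := s) (by omega)
      rw [show s - 1 + 1 = s by omega] at e1
      exact NF.padj_page hI e1 e2
  have pa0 : d.pa ≠ 0 := by simp [OpD.pa]
  have pb0 : d.pb ≠ 0 := by simp [OpD.pb]
  have pc0 : d.pc ≠ 0 := by simp [OpD.pc]
  have pd0 : d.pd ≠ 0 := by simp [OpD.pd]
  simp only [OpD.flats, List.take, List.mem_cons, List.not_mem_nil, or_false] at hR
  rcases hR with rfl | rfl | rfl | rfl | rfl | rfl | rfl | rfl | rfl | rfl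
  · simp only [cycPairs, List.tail_cons, List.take, List.cons_append, List.nil_append,
      List.zip_cons_cons, List.zip_nil_right, List.mem_cons, List.not_mem_nil, or_false] at he
    rcases he with rfl | rfl | rfl | rfl | rfl
    · exact NF.padj_b1 hI a3
    · exact NF.padj_symm (NF.padj_page hI a2 a3)
    · exact NF.padj_symm (NF.padj_page hI a1 a2)
    · exact NF.padj_symm (NF.padj_b2 hI a1)
    · exact NF.padj_symm (NF.padj_b hI)
  · simp only [cycPairs, List.tail_cons, List.take, List.cons_append, List.nil_append,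
      List.zip_cons_cons, List.zip_nil_right, List.mem_cons, List.not_mem_nil, or_false] at he
    rcases he with rfl | rfl | rfl | rfl | rfl | rfl
    · exact NF.padj_b2 hI b1
    · exact NF.padj_page hI b1 b2
    · exact NF.padj_page hI b2 b3
    · exact NF.padj_page hI b3 b4
    · exact NF.padj_symm (NF.padj_b1 hI b4)
    · exact NF.padj_b hI
  · simp only [cycPairs, List.tail_cons, List.take, List.cons_append, List.nil_append,
      List.zip_cons_cons, List.zip_nil_right, List.mem_cons, List.not_mem_nil, or_false] at he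
    rcases he with rfl | rfl | rfl | rfl | rfl
    · exact NF.padj_b1 hI c3
    · exact NF.padj_symm (NF.padj_page hI c2 c3)
    · exact NF.padj_symm (NF.padj_page hI c1 c2)
    · exact NF.padj_symm (NF.padj_b2 hI c1)
    · exact NF.padj_symm (NF.padj_b hI)
  · simp only [cycPairs, List.tail_cons, List.take, List.cons_append, List.nil_append,
      List.zip_cons_cons, List.zip_nil_right, List.mem_cons, List.not_mem_nil, or_false] at he
    rcases he with rfl | rfl | rfl | rfl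
    · exact NF.padj_b2 hI d1
    · exact NF.padj_page hI d1 d2
    · exact NF.padj_symm (NF.padj_b1 hI d2)
    · exact NF.padj_b hI
  · exact sq _ _ _ _ pa0 a1 a2 e he
  · exact sq _ _ _ _ pb0 b1 b2 e he
  · exact sq _ _ _ _ pb0 b2 b3 e he
  · exact sq _ _ _ _ pb0 b3 b4 e he
  · exact sq _ _ _ _ pc0 c2 c3 e he
  · exact sq _ _ _ _ pd0 d1 d2 e he

end Pool.Agent.Helper49.G4
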