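import Pool.Agent.Helper22.G4.GenFam
import Pool.Agent.Helper22.G4.St.P5

/-! # G4-H4: free simplex facets -/

namespace Pool.Agent.Helper49.G4

open Pool.Agent.Helper22.G4
open Submodule

variable {α φ : Type} [DecidableEq α] [DecidableEq φ]

/-- G4-H4 (free simplex facets). -/
theorem gen_free {D : Data α φ} (hD : D.Good) {c : W α φ → E5} (hc : Conf c D.l3.toFinset)
    (hs : span ℝ (c '' (D.l3.toFinset : Set (W α φ))) = ⊤)
    (ha : ∀ u ∈ D.l3, ∀ v ∈ D.l3, u ≠ v → (FaceOn c D.l3.toFinset {u, v} ↔ D.adjW u v))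
    {f : φ} (hf : D.Free f) :
    FaceOn c (D.l3.toFinset.erase (W.x f)) (D.Fs f) ∧ rk c (D.Fs f) = 4 := by
  classical
  -- the four vertices
  set T0 : Finset α := D.verts.toFinset.filter (fun a => D.mem f a = true) with hT0
  set T : Finset (W α φ) := T0.image W.v with hTdef
  have hmemT0 : ∀ a, a ∈ T0 ↔ a ∈ D.verts ∧ D.mem f a = true := by
    intro a; simp [hT0]
  have hmemT : ∀ w, w ∈ T ↔ ∃ a ∈ D.verts, D.mem f a = true ∧ w = W.v a := by
    intro w
    simp only [hTdef, Finset.mem_image, hmemT0]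
    constructor
    · rintro ⟨a, ⟨h1, h2⟩, rfl⟩; exact ⟨a, h1, h2, rfl⟩
    · rintro ⟨a, h1, h2, rfl⟩; exact ⟨a, ⟨h1, h2⟩, rfl⟩
  have hTFs : (T : Set (W α φ)) = D.Fs f := by
    ext w
    simp only [Finset.mem_coe, hmemT, Data.Fs, Set.mem_ofPred_eq]
  have hT0card : T0.card = 4 := by
    rw [← hf.four, ← Set.ncard_coe_finset]
    congr 1
    ext a
    simp [hmemT0]
  have hinj : Function.Injective (W.v : α → W α φ) := fun a b h => by
    simpa using h
  have hTcard : T.card = 4 := by
    rw [hTdef, Finset.card_image_of_injective _ hinj, hT0card]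
  have hv : ∀ a ∈ D.verts, W.v a ∈ D.l3 := by
    intro a ha
    simp [Data.l3, Data.l2, Data.l1, Data.l0, ha]
  have hx : W.x f ∈ D.l3 := by
    simp [Data.l3, Data.l2, Data.l1, Data.l0, hf.mem]
  -- a vertex off the facet
  have hoff : ∃ a ∈ D.verts, ¬ D.mem f a = true := by
    by_contra hcon
    push Not at hcon
    have h1 : T0 = D.verts.toFinset := by
      ext a
      rw [hmemT0, List.mem_toFinset]
      exact ⟨fun h => h.1, fun h => ⟨h, hcon a h⟩⟩
    have h2 : D.verts.toFinset.card = D.verts.length := List.toFinset_card_of_nodup hD.vnd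
    have h3 := hD.big
    rw [h1] at hT0card
    omega
  have key := simple_vertex hc (z := W.x f) (T := T) ?_ ?_ hTcard ?_ ?_ ?_ ?_
  · obtain ⟨-, -, -, h4, h5⟩ := key
    rw [hTFs] at h4
    refine ⟨h4, ?_⟩
    unfold rk
    rw [← hTFs]
    have h6 : c '' (T : Set (W α φ)) = Set.range (fun t : T => c t) := by
      ext y
      simp
    rw [h6, finrank_span_eq_card h5]
    simpa using hTcard
  · unfold rk
    rw [hs, finrank_top]
    simp
  · rw [List.mem_toFinset]; exact hx
  · intro w hw
    obtain ⟨a, h1, -, rfl⟩ := (hmemT w).1 hw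
    rw [Finset.mem_erase, List.mem_toFinset]
    exact ⟨by simp, hv a h1⟩
  · intro t ht htne
    rw [List.mem_toFinset] at ht
    rw [ha _ hx _ ht (Ne.symm htne), hmemT]
    rcases t with a | g | R | R
    · have ha' : a ∈ D.verts := by
        simpa [Data.l3, Data.l2, Data.l1, Data.l0] using ht
      constructor
      · intro h; exact ⟨a, ha', h, rfl⟩
      · rintro ⟨b, -, hb, hab⟩
        obtain rfl : a = b := by simpa using hab
        exact hb
    · constructor
      · intro h; exact absurd h (by simp [Data.adjW])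
      · rintro ⟨b, -, hb, hab⟩
        exact absurd hab (by simp)
    · have hR : R ∈ D.flats := by
        simpa [Data.l3, Data.l2, Data.l1, Data.l0] using ht
      constructor
      · intro h; exact absurd (show f = R.2.1 from h).symm (hf.nop R hR)
      · rintro ⟨b, -, hb, hab⟩
        exact absurd hab (by simp)
    · have hR : R ∈ D.flats := by
        simpa [Data.l3, Data.l2, Data.l1, Data.l0] using ht
      constructor
      · intro h; exact absurd (show D.eIn R f = true from h) (hf.noq R hR)
      · rintro ⟨b, -, hb, hab⟩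
        exact absurd hab (by simp)
  · intro s hs' t ht hst
    obtain ⟨a, h1, h2, rfl⟩ := (hmemT s).1 hs'
    obtain ⟨b, h3, h4, rfl⟩ := (hmemT t).1 ht
    rw [ha _ (hv a h1) _ (hv b h3) hst]
    exact hf.clique a h1 b h3 h2 h4 (fun h => hst (by rw [h]))
  · obtain ⟨a, h1, h2⟩ := hoff
    refine ⟨W.v a, ?_, by simp, ?_⟩
    · rw [List.mem_toFinset]; exact hv a h1
    · rw [hmemT]
      rintro ⟨b, -, hb, hab⟩
      obtain rfl : a = b := by simpa using hab
      exact h2 hb

end Pool.Agent.Helper49.G4
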